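import Pool.Agent.Lib.MP_35454f.QFin

/-!
# Necessary conditions for closed geodesics of multiply connected domains

Let `D` be a closed disc from which `n ≥ 2` disjoint round discs have been removed, with a Riemannian
metric `g = σ (dx² + dy²)`. Let `φ` be a non-constant geodesic of the group of area-preserving
diffeomorphisms of `(D, g)`, with the right-invariant `L²` metric, which is the identity at the
times `0` and `T > 0`. Then:

* the vorticity takes positive and negative values;
* if `(D, g)` is isometric to (or immersed in) the Euclidean plane, then the product of `T` and the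
  oscillation of the vorticity is at least `8π`;
* there is no vector field `X` with `div X = 1`, `g(∇_v X, v) > - g(v, v) / 2` for `v ≠ 0`, and
  `g(X, ν) ≥ 0` on the boundary (`ν` the outer unit normal).

By Koebe's theorem every bounded domain of the Euclidean plane with smooth boundary and `n` holes is
isometric to such a `(D, g)`.
-/

set_option autoImplicit false

namespace Pool.Agent.Results.MP_35454f_gt.ClosedGeodesicConditions

open Pool.Agent.CG

theorem result {n : ℕ} (hn : 2 ≤ n) (D : CircularDomain n) (σ : ℂ → ℝ) (hσ : IsMetric D σ)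
    (φ : ℝ → ℂ → ℂ) (u : ℝ → ℂ → ℂ) (p : ℝ → ℂ → ℝ) (h : IsGeodesicWith D σ φ u p)
    (T : ℝ) (hT : 0 < T) (hreturn : ∀ z ∈ D.carrier, φ T z = z)
    (hne : ∃ t, ∃ z ∈ D.carrier, φ t z ≠ z) :
    ((∃ z ∈ D.carrier, 0 < vortS σ (u 0) z) ∧ ∃ z ∈ D.carrier, vortS σ (u 0) z < 0) ∧
    (∀ F, IsFlatChart D σ F → ∃ z ∈ D.carrier, ∃ w ∈ D.carrier,
      8 * Real.pi ≤ T * (vortS σ (u 0) z - vortS σ (u 0) w)) ∧
    ¬ ∃ X, IsFieldS D σ X :=
  h.conditions hn hσ hT hreturn hne

end Pool.Agent.Results.MP_35454f_gt.ClosedGeodesicConditions
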