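import Pool.Agent.Lib.MP_35454f_h77.BNear

/-!
# Surfaces with or without boundary, metrics close to a hyperbolic metric: no closed geodesics

Let `M = Γ \ D` be a compact connected hyperbolic surface with (possibly empty) geodesic boundary
and let `f` be a `Γ`-invariant function of class `C⁴` on `ℍ` with `y^j |D^j f| ≤ 1/50` for
`1 ≤ j ≤ 4`, whose derivative in the direction of the outer normals of `D` is nonnegative. Then
`σ = 1 + y² Δ f` is positive and, for the metric `σ (dx² + dy²) / y²` on `M`, every geodesic of the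
group of area-preserving diffeomorphisms of `M` (with the right-invariant `L²` metric) which starts
at the identity and returns to the identity at some time `T > 0` is constant.
-/

set_option autoImplicit false

open Complex
open scoped MatrixGroups UpperHalfPlane

namespace Pool.Agent.Results.MP_35454f_gt.NearHyperbolicBoundary

open Pool.Agent.CG

theorem result (Γ : Subgroup SL(2, ℝ)) (D : Set ℍ) (hD : IsSurface Γ D)
    (f : ℍ → ℝ) (hinv : ∀ γ ∈ Γ, ∀ z, f (γ • z) = f z)
    (hsmooth : ContDiffOn ℝ 4 (fun w : ℂ => f (UpperHalfPlane.ofComplex w)) {w | 0 < w.im})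
    (hsmall : ∀ j : ℕ, 1 ≤ j → j ≤ 4 → ∀ z : ℍ,
      z.im ^ j * ‖iteratedFDeriv ℝ j (fun w : ℂ => f (UpperHalfPlane.ofComplex w)) (z : ℂ)‖ ≤
        1 / 50)
    (hnormal : ∀ z ∈ frontier D, ∀ n : ℂ, IsOuterNormal D z n →
      0 ≤ fderiv ℝ (fun w : ℂ => f (UpperHalfPlane.ofComplex w)) (z : ℂ) n) :
    (∀ z, 0 < 1 + hypLap f z) ∧
    ∀ φ : ℝ → ℍ → ℍ, IsGeodesicD Γ D (fun z => 1 + hypLap f z) φ → ∀ T : ℝ, 0 < T →
      (∀ z ∈ D, ∃ γ ∈ Γ, φ T z = γ • z) → ∀ t, ∀ z ∈ D, φ t z = z :=
  ⟨(noClosedGeodesic_nearD hD hsmooth hinv hsmall hnormal).1.pos,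
    (noClosedGeodesic_nearD hD hsmooth hinv hsmall hnormal).2⟩

end Pool.Agent.Results.MP_35454f_gt.NearHyperbolicBoundary
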