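import Pool.Agent.Lib.MP_35454f.PHoles

/-!
# Discs with small holes: no closed geodesics

Let `a₁, …, aₙ`, `n ≥ 2`, be points of the open disc of radius `R` such that, in suitable Cartesian
coordinates (the real axis having the direction `e`), the slope between any two of them is less than
`√3` in absolute value, and so are the slopes between each of them and the points `± R`. Then for all
sufficiently small radii the disc of radius `R` with round holes centered at the points has the
following property, and so has every circular domain close to it, with every conformal metric close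
to the Euclidean one: every geodesic of the group of area-preserving diffeomorphisms, with the
right-invariant `L²` metric, which starts at the identity and is at the identity again at some time
`T > 0` is constant.
-/

set_option autoImplicit false

open scoped ContDiff ComplexConjugate

namespace Pool.Agent.Results.MP_35454f_gt.SmallHoles

open Pool.Agent.CG

theorem result {n : ℕ} (hn : 2 ≤ n) {R : ℝ} (a : Fin n → ℂ) (e : ℂ) (he : ‖e‖ = 1)
    (hin : ∀ i, ‖a i‖ < R)
    (hbd : ∀ i, |(conj e * a i).im| < √3 * (R - |(conj e * a i).re|))
    (hpair : ∀ i j, i ≠ j →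
      |(conj e * (a i - a j)).im| < √3 * |(conj e * (a i - a j)).re|) :
    ∃ r₀ > 0, ∀ D : CircularDomain n, D.R = R → D.a = a → (∀ i, D.r i ≤ r₀) →
      ∃ ε > 0, ∀ D' : CircularDomain n, |D'.R - D.R| ≤ ε → (∀ i, ‖D'.a i - D.a i‖ ≤ ε) →
        (∀ i, |D'.r i - D.r i| ≤ ε) → ∀ σ : ℂ → ℝ, ContDiff ℝ 1 σ →
        (∀ z, ‖z‖ ≤ D.R + ε → |σ z - 1| ≤ ε ∧ ‖fderiv ℝ σ z‖ ≤ ε) →
        IsMetric D' σ ∧ NoClosedGeodesicS D' σ :=
  small_holes hn he hpair hbd hin

end Pool.Agent.Results.MP_35454f_gt.SmallHoles
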