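import Pool.Agent.Lib.MP_35454f_h77.BFinal

/-!
# A criterion for the absence of closed geodesics on surfaces with or without boundary

Let `M = Γ \ D` be a compact connected oriented surface of negative Euler characteristic, with or
without boundary, with a Riemannian metric `σ (dx² + dy²) / y²` of curvature `K`. If for some real
number `κ` there is a `C¹` vector field `X` on `M` with `div X = K - κ`,
`⟨∇_v X, v⟩ > (κ / 2) |v|²` for all nonzero tangent vectors `v`, and `κ_g + ⟨X, ν⟩ ≥ 0` on the
boundary (`ν` the outer unit normal, `κ_g` the geodesic curvature of the boundary), then every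
geodesic of the group of area-preserving diffeomorphisms of `M` (with the right-invariant `L²`
metric) which starts at the identity and returns to the identity at some time `T > 0` is constant.
-/

set_option autoImplicit false

open scoped MatrixGroups UpperHalfPlane

namespace Pool.Agent.Results.MP_35454f_gt.SurfaceCriterion

open Pool.Agent.CG

theorem result (Γ : Subgroup SL(2, ℝ)) (D : Set ℍ) (hD : IsSurface Γ D)
    (σ : ℍ → ℝ) (hσ : IsConformalFactor Γ σ)
    (κ : ℝ) (X : ℍ → ℂ) (hX : IsCertificateD Γ D σ κ X)
    (φ : ℝ → ℍ → ℍ) (hφ : IsGeodesicD Γ D σ φ) (T : ℝ) (hT : 0 < T)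
    (hreturn : ∀ z ∈ D, ∃ γ ∈ Γ, φ T z = γ • z) :
    ∀ t, ∀ z ∈ D, φ t z = z :=
  fun t _ hz => noClosedGeodesicD hD hσ hX hφ hT hreturn t hz

end Pool.Agent.Results.MP_35454f_gt.SurfaceCriterion
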